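import Pool.Agent.N929.EZ.Area

/-!
Self-avoiding polygons on the square lattice: regularity to all orders, in the perimeter, of the
moments of the area.
-/

set_option autoImplicit false

namespace Pool.Agent.Results.MP_2250b1_co.AllOrders

/-- a closed nearest-neighbour loop on `ℤ²` with `m` steps, rooted at the origin and oriented,
that visits no vertex twice -/
def IsLoop (m : ℕ) (f : ZMod m → ℤ × ℤ) : Prop :=
  f 0 = 0 ∧ Function.Injective f ∧
    ∀ i : ZMod m, |(f (i + 1)).1 - (f i).1| + |(f (i + 1)).2 - (f i).2| = 1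

/-- the edge from `f k` to `f (k+1)` is horizontal, joins the columns `x = a` and `x = a + 1`, and
has height larger than `b`: it lies above the unit cell `[a, a+1] × [b, b+1]` -/
def Above (m : ℕ) (f : ZMod m → ℤ × ℤ) (a b : ℤ) (k : ZMod m) : Prop :=
  (((f k).1 = a ∧ (f (k + 1)).1 = a + 1) ∨ ((f k).1 = a + 1 ∧ (f (k + 1)).1 = a)) ∧ b < (f k).2

/-- the unit cell `[a, a+1] × [b, b+1]` is enclosed by the loop: the vertical ray from the cell
upwards crosses an odd number of edges -/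
def Encl (m : ℕ) (f : ZMod m → ℤ × ℤ) (c : ℤ × ℤ) : Prop :=
  Odd (Nat.card {k : ZMod m // Above m f c.1 c.2 k})

/-- the area: the number of unit cells enclosed by the loop -/
noncomputable def area (m : ℕ) (f : ZMod m → ℤ × ℤ) : ℕ := Nat.card {c : ℤ × ℤ // Encl m f c}

/-- the moment `A_n(k)` of order `k` of the area of the self-avoiding polygons of perimeter `2 n`:
the average of the `k`-th power of the area over the rooted oriented polygons; `k = 1` gives the
mean area `A_n` -/
noncomputable def A (k n : ℕ) : ℝ :=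
  (∑ᶠ f ∈ {f : ZMod (2 * n) → ℤ × ℤ | IsLoop (2 * n) f}, (area (2 * n) f : ℝ) ^ k) /
    ({f : ZMod (2 * n) → ℤ × ℤ | IsLoop (2 * n) f}.ncard : ℝ)

open Pool.Agent.H976R2 Pool.Agent.N929.EZ Pool.Agent.H739K

theorem A_eq (k : ℕ) {n : ℕ} (hn : 2 ≤ n) :
    A k n = (∑ w ∈ KP (2 * n - 1), (ar w : ℝ) ^ k) / ((KP (2 * n - 1)).card : ℝ) := by
  obtain ⟨h1, h2, -⟩ := Pool.Agent.H739K.CONV_proof n hn
  unfold A
  have e1 : {f : ZMod (2 * n) → ℤ × ℤ | IsLoop (2 * n) f} =
    {f : ZMod (2 * n) → ℤ × ℤ | Pool.Agent.H924P.IsLoop (2 * n) f} := rfl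
  rw [e1, h2, h1 (fun f => (area (2 * n) f : ℝ) ^ k)]
  congr 1
  refine Finset.sum_congr rfl (fun w hw => ?_)
  have hl := (KP_mem hw).2.2
  unfold ar
  rw [hl, show 2 * n - 1 + 1 = 2 * n by omega]
  rfl

/-- **Theorem.** For every `k` and every `r ≥ 1` there is a constant `K` such that for all `n ≥ 2`
the `r`-th difference of `log A_n(k)` is at most `K (log n / √n)^r` in absolute value. -/
theorem result : ∀ k r : ℕ, 1 ≤ r → ∃ K : ℝ, ∀ n : ℕ, 2 ≤ n →
      |∑ i ∈ Finset.range (r + 1), (-1 : ℝ) ^ i * (r.choose i : ℝ) * Real.log (A k (n + i))| ≤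
        K * (Real.log n / Real.sqrt n) ^ r := by
  intro k r hr
  obtain ⟨C, -, h⟩ := area_main k r hr
  refine ⟨C, fun n hn => ?_⟩
  refine le_trans (le_of_eq ?_) (h n hn)
  congr 1
  refine Finset.sum_congr rfl (fun i _ => ?_)
  rw [A_eq k (by omega)]

end Pool.Agent.Results.MP_2250b1_co.AllOrders
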