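import Pool.Agent.N932.AG.Smooth
import Pool.Agent.N932.AG.Upper

/-!
The area of the uniform self-avoiding polygon of perimeter `2n` on `ℤ²`, given all the polygon except
one arc with `m` steps, for all arcs at once: it is determined up to a constant times the square of
the scale `Y_m` of the `m`-step self-avoiding walk, and its law is smooth to all orders at the scale
`√m`.
-/

set_option autoImplicit false

namespace Pool.Agent.Results.MP_2250b1_co.AreaGivenRest

/-- `ω` is an `n`-step self-avoiding walk on `ℤ²` started at the origin. -/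
def IsSAW (n : ℕ) (ω : Fin (n + 1) → ℤ × ℤ) : Prop :=
  ω 0 = (0, 0) ∧
  (∀ i : Fin n, |(ω i.succ).1 - (ω i.castSucc).1| + |(ω i.succ).2 - (ω i.castSucc).2| = 1) ∧
  Function.Injective ω

/-- Euclidean length. -/
noncomputable def len (x : ℤ × ℤ) : ℝ := Real.sqrt ((x.1 : ℝ) ^ 2 + (x.2 : ℝ) ^ 2)

/-- Diameter of a path. -/
noncomputable def diam (n : ℕ) (ω : Fin (n + 1) → ℤ × ℤ) : ℝ :=
  ⨆ p : Fin (n + 1) × Fin (n + 1), len (ω p.1 - ω p.2)

/-- The probability of the event `E` for the uniform `n`-step self-avoiding walk. -/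
noncomputable def prob (n : ℕ) (E : (Fin (n + 1) → ℤ × ℤ) → Prop) : ℝ :=
  ({ω | IsSAW n ω ∧ E ω}.ncard : ℝ) / ({ω | IsSAW n ω}.ncard : ℝ)

/-- The mean diameter of the `n`-step self-avoiding walks. -/
noncomputable def mean (n : ℕ) : ℝ :=
  (∑ᶠ ω ∈ {ω | IsSAW n ω}, diam n ω) / ({ω | IsSAW n ω}.ncard : ℝ)

/-- `f` is a self-avoiding polygon of perimeter `2n` with a root and an orientation: an injective
closed nearest-neighbour loop. -/
def IsPolygon (n : ℕ) (f : ZMod (2 * n) → ℤ × ℤ) : Prop :=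
  Function.Injective f ∧
    ∀ i : ZMod (2 * n), |(f (i + 1)).1 - (f i).1| + |(f (i + 1)).2 - (f i).2| = 1

/-- The rooted oriented polygons with root at the origin (every polygon up to translation gives
`4n` of them). -/
def polygons (n : ℕ) : Set (ZMod (2 * n) → ℤ × ℤ) := {f | f 0 = 0 ∧ IsPolygon n f}

/-- The probability of `B` for the uniform polygon. -/
noncomputable def polyProb (n : ℕ) (B : (ZMod (2 * n) → ℤ × ℤ) → Prop) : ℝ :=
  ({f | f ∈ polygons n ∧ B f}.ncard : ℝ) / ((polygons n).ncard : ℝ)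

/-- the edge from `f k` to `f (k+1)` is horizontal, joins the columns `x = a` and `x = a + 1`, and
has height larger than `b`: it lies above the unit cell `[a, a+1] × [b, b+1]` -/
def Above (m : ℕ) (f : ZMod m → ℤ × ℤ) (a b : ℤ) (k : ZMod m) : Prop :=
  (((f k).1 = a ∧ (f (k + 1)).1 = a + 1) ∨ ((f k).1 = a + 1 ∧ (f (k + 1)).1 = a)) ∧ b < (f k).2

/-- the unit cell `[a, a+1] × [b, b+1]` is enclosed by the loop: the vertical ray from the cell
upwards crosses an odd number of edges -/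
def Encl (m : ℕ) (f : ZMod m → ℤ × ℤ) (c : ℤ × ℤ) : Prop :=
  Odd (Nat.card {k : ZMod m // Above m f c.1 c.2 k})

/-- the area: the number of unit cells enclosed by the loop -/
noncomputable def area (m : ℕ) (f : ZMod m → ℤ × ℤ) : ℕ := Nat.card {c : ℤ × ℤ // Encl m f c}

/-- The mean area `A_n` of the polygons of perimeter `2n`. -/
noncomputable def meanArea (n : ℕ) : ℝ :=
  (∑ᶠ f ∈ polygons n, (area (2 * n) f : ℝ)) / ((polygons n).ncard : ℝ)

/-- The times strictly between `s` and `s + m`. -/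
def between (n : ℕ) (s : ZMod (2 * n)) (m : ℕ) : Set (ZMod (2 * n)) :=
  {i | ∃ j : ℕ, 1 ≤ j ∧ j < m ∧ i = s + j}

/-- The polygons which agree with `f` at all the times which are not strictly between `s` and
`s + m`. -/
def agree (n : ℕ) (s : ZMod (2 * n)) (m : ℕ) (f : ZMod (2 * n) → ℤ × ℤ) :
    Set (ZMod (2 * n) → ℤ × ℤ) :=
  {g | IsPolygon n g ∧ ∀ i, i ∉ between n s m → g i = f i}

/-- The conditional probability of `B(A)`, where `A` is the area, given all the polygon except the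
arc from `s` to `s + m`. -/
noncomputable def given (n : ℕ) (s : ZMod (2 * n)) (m : ℕ) (f : ZMod (2 * n) → ℤ × ℤ)
    (B : ℕ → Prop) : ℝ :=
  ({g | g ∈ agree n s m f ∧ B (area (2 * n) g)}.ncard : ℝ) / ((agree n s m f).ncard : ℝ)

/-- The conditional mean of `ψ(A)`, where `A` is the area, given all the polygon except the arc from
`s` to `s + m`. -/
noncomputable def meanGiven (n : ℕ) (s : ZMod (2 * n)) (m : ℕ) (f : ZMod (2 * n) → ℤ × ℤ)
    (ψ : ℕ → ℝ) : ℝ :=
  (∑ᶠ g ∈ agree n s m f, ψ (area (2 * n) g)) / ((agree n s m f).ncard : ℝ)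

open scoped Classical in
open Pool.Agent.N932.FL Pool.Agent.N932.FL.Poly in
/-- **The area given all the rest of the polygon.** For every `κ ≥ 1` there are `K ≥ 1`,
`A : ℕ → ℝ` and integers `1 ≤ Y_m ≤ m` (`m ≥ 424`) such that, on `ℤ²`:
(0) for `m ≥ 424` the mean diameter of the `m`-step self-avoiding walks is at most `195 Y_m`, their
diameter is between `Y_m` and `3 Y_m` with probability at least `exp (- K (log m)³)`, and it is at
least `390 k Y_m` with probability at most `exp (- κ k (log m)²)` for all `k ≥ 1`; and the mean area `A_n` of the polygons of perimeter `2n` is at most `K (Y_{2n-1})²` if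
`2n - 1 ≥ 424`;
and for all `n ≥ 2` and `x ≥ 0`, for the uniform polygon `f` of perimeter `2n`, with probability at
least `1 - exp (-x)`, for all `s` and all `m ≤ 2n - 4` at once, given all the polygon except the arc
from `s` to `s + m`, the area `a` of the polygon satisfies:
(1) if `m ≥ 424`, there is an integer `a₀` with `|a - a₀| > (780 k Y_m)²` with probability at most
`exp (K (log n)² + x - κ k (log m)²)`, for all `k ≥ 1`;
and, if `m ≥ K ((log n)² + x)`,
(2) `|E[cos(t a + φ)]| ≤ K exp(- m sin²(t/2) / K)` for all real `t`, `φ`;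
(3) `|E[∑ (-1)^i C(k,i) h(a + i)]| ≤ A k m^(-k/2)` for all `k` and all functions `h` with values in
`[-1, 1]`;
(4) `|E[∑ (-1)^i C(k,i) 1(a + i = b)]| ≤ A (k+1) m^(-(k+1)/2)` for all `k` and `b`;
(5) `|P(a ≡ r mod q) - 1 / q| ≤ K exp(- m / (K q²))` for all `q ≥ 1` and `r`.
In (3) and (4) `i` runs from `0` to `k`. -/
theorem result (κ : ℝ) (hκ : 1 ≤ κ) : ∃ (K : ℝ) (A : ℕ → ℝ) (Y : ℕ → ℕ), 1 ≤ K ∧
    (∀ m ≥ 424, 1 ≤ Y m ∧ Y m ≤ m ∧ mean m ≤ 195 * Y m ∧
      Real.exp (-(K * Real.log m ^ 3)) ≤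
        prob m (fun v => Y m ≤ diam m v ∧ diam m v ≤ 3 * Y m) ∧
      ∀ k : ℕ, 1 ≤ k →
        prob m (fun v => 390 * k * Y m ≤ diam m v) ≤ Real.exp (-(κ * k * Real.log m ^ 2))) ∧
    (∀ n : ℕ, 424 ≤ 2 * n - 1 → meanArea n ≤ K * (Y (2 * n - 1) : ℝ) ^ 2) ∧
    ∀ n : ℕ, 2 ≤ n → ∀ x : ℝ, 0 ≤ x →
      polyProb n (fun f => ¬ ∀ (s : ZMod (2 * n)) (m : ℕ), m + 4 ≤ 2 * n →
        (424 ≤ m → ∃ a₀ : ℕ, ∀ k : ℕ, 1 ≤ k →
          given n s m f (fun a => (780 * k * (Y m : ℝ)) ^ 2 < |(a : ℝ) - a₀|) ≤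
            Real.exp (K * Real.log n ^ 2 + x - κ * k * Real.log m ^ 2)) ∧
        (K * (Real.log n ^ 2 + x) ≤ m →
          (∀ t φ : ℝ, |meanGiven n s m f (fun a => Real.cos (t * a + φ))| ≤
            K * Real.exp (-(Real.sin (t / 2) ^ 2 * m / K))) ∧
          (∀ (k : ℕ) (h : ℕ → ℝ), (∀ a, |h a| ≤ 1) →
            |meanGiven n s m f (fun a => ∑ i ∈ Finset.range (k + 1),
              (-1 : ℝ) ^ i * (k.choose i : ℝ) * h (a + i))| ≤ A k / Real.sqrt m ^ k) ∧
          (∀ k b : ℕ, |meanGiven n s m f (fun a => ∑ i ∈ Finset.range (k + 1),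
              (-1 : ℝ) ^ i * (k.choose i : ℝ) * (if a + i = b then (1 : ℝ) else 0))| ≤
            A (k + 1) / Real.sqrt m ^ (k + 1)) ∧
          ∀ q : ℕ, 1 ≤ q → ∀ r : ℕ,
            |meanGiven n s m f (fun a => if a ≡ r [MOD q] then (1 : ℝ) else 0) - 1 / q| ≤
            K * Real.exp (-(m / (K * q ^ 2))))) ≤ Real.exp (-x) := by
  obtain ⟨K1, Y, h1⟩ := MP_b1de6e_pr.WalkPictures.result κ (by linarith)
  obtain ⟨K2, hK2, h2⟩ := arc_dens
  obtain ⟨K3, hK3, h3⟩ := loops_dens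
  obtain ⟨C, hC, A, hsm⟩ := Pool.Agent.N932.AG.smooth
  have hw : ∀ m, {ω | IsSAW m ω} = sqLat.walks m := MP_b1de6e_pr.DiametersGivenRest.walks_eq
  have hprob : ∀ (m : ℕ) (B : (Fin (m + 1) → ℤ × ℤ) → Prop), prob m B =
      ((sqLat.walks m ∩ {ω | B ω}).ncard : ℝ) / (sqLat.walks m).ncard := by
    intro m B
    unfold prob
    rw [← hw]
    rfl
  have htail : ∀ m ≥ 424, ∀ k : ℕ, 1 ≤ k →
      prob m (fun v => 390 * k * Y m ≤ diam m v) ≤ Real.exp (-(κ * k * Real.log m ^ 2)) :=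
    fun m hm k hk => (h1 m hm).2.2 k m hk (Nat.le_mul_of_pos_left m hk)
  obtain ⟨k₀, hk₀⟩ : ∃ k₀ : ℕ, k₀ = ⌈K3⌉₊ + 3 := ⟨_, rfl⟩
  have hk₀' : K3 + 3 ≤ κ * k₀ := by
    have h4 := Nat.le_ceil K3
    have h5 : (k₀ : ℝ) = ⌈K3⌉₊ + 3 := by rw [hk₀]; push_cast; ring
    have h6 : (k₀ : ℝ) ≤ κ * k₀ := le_mul_of_one_le_left (Nat.cast_nonneg _) hκ
    linarith
  obtain ⟨K, hK⟩ : ∃ K : ℝ, K = K2 + 2 + 3 * C + (780 * k₀) ^ 2 + 16 + |K1| := ⟨_, rfl⟩
  have hK1a := abs_nonneg K1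
  have hK1K : K1 ≤ K := by
    rw [hK]
    nlinarith [sq_nonneg (780 * (k₀ : ℝ)), le_abs_self K1]
  have hK1 : 1 ≤ K := by rw [hK]; nlinarith [sq_nonneg (780 * (k₀ : ℝ))]
  have hKpos : 0 < K := by linarith
  have hKC : 3 * C ≤ K := by rw [hK]; nlinarith [sq_nonneg (780 * (k₀ : ℝ))]
  have hKC' : C ≤ K := by linarith
  have hCpos : 0 < C := by linarith
  have hl2 := Real.log_two_gt_d9
  have hl2' := Real.log_two_lt_d9
  refine ⟨K, A, Y, hK1, fun m hm => ⟨(h1 m hm).1.1, (h1 m hm).1.2.1, (h1 m hm).1.2.2, ?_,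
    htail m hm⟩, fun n hn => ?_, fun n hn x hx => ?_⟩
  · -- the diameter of the walk is of the order of the scale with not too small probability
    obtain ⟨-, a4, -⟩ := h1 m hm
    obtain ⟨P, hP, hPd⟩ := MP_b1de6e_pr.DiametersGivenRest.one_step
    obtain ⟨τ, -, -, -, b⟩ := a4 1 P m le_rfl hP (Nat.div_one m)
    have c1 : Real.exp (-(K * Real.log m ^ 3)) ≤
        Real.exp (-(K1 * ((1 : ℕ) : ℝ) * Real.log m ^ 3)) := by
      refine Real.exp_le_exp.2 (neg_le_neg ?_)
      rw [Nat.cast_one, mul_one]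
      exact mul_le_mul_of_nonneg_right hK1K (pow_nonneg (Real.log_natCast_nonneg m) 3)
    refine c1.trans (b.trans ?_)
    show (({ω | IsSAW m ω ∧ _}.ncard : ℕ) : ℝ) / (({ω | IsSAW m ω}.ncard : ℕ) : ℝ) ≤ _
    unfold prob
    refine div_le_div_of_nonneg_right ?_ (Nat.cast_nonneg _)
    have hfin : {ω : Fin (m + 1) → ℤ × ℤ | IsSAW m ω}.Finite := by
      rw [hw]
      exact sqLat.finite m
    refine Nat.cast_le.2 (Set.ncard_le_ncard ?_ (hfin.subset fun ω hω => hω.1))
    rintro ω ⟨hω, -, h5, h6⟩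
    rw [hPd, mul_one] at h5
    rw [hPd] at h6
    refine ⟨hω, h5, ?_⟩
    have h7 : diam m ω ≤ (Y m : ℝ) * (1 + 2) := h6
    linarith
  · -- the mean area
    have hn2 : 2 ≤ n := by omega
    have hn1 : 1 ≤ n := by omega
    have : NeZero (2 * n) := ⟨by omega⟩
    obtain ⟨hpos, hd⟩ := h3 n hn2
    have hLf : (loops n).Finite := loops_fin hn1
    have hn2' : (2 : ℝ) ≤ n := by exact_mod_cast hn2
    have hlog : Real.log 2 ≤ Real.log n := Real.log_le_log (by norm_num) hn2'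
    obtain ⟨N, hN⟩ : ∃ N : ℝ, N = ((loops n).ncard : ℝ) := ⟨_, rfl⟩
    have hN0 : 0 < N := by rw [hN]; exact_mod_cast hpos
    obtain ⟨Q, hQ⟩ : ∃ Q : ℕ, Q = 390 * k₀ * Y (2 * n - 1) := ⟨_, rfl⟩
    have hY : (1 : ℝ) ≤ Y (2 * n - 1) := by exact_mod_cast (h1 _ hn).1.1
    -- the bad polygons
    have h5 := hd {v | (Q : ℝ) ≤ diam (2 * n - 1) v}
    have h6 := htail (2 * n - 1) hn k₀ (by omega)
    rw [hprob] at h6
    have h7 : (390 : ℝ) * k₀ * Y (2 * n - 1) = Q := by rw [hQ]; push_cast; ring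
    rw [h7] at h6
    rw [← hN] at h5
    have h8 : ((loops n ∩ {f | e n f ∈ {v | (Q : ℝ) ≤ diam (2 * n - 1) v}}).ncard : ℝ) ≤
        1 / (n : ℝ) ^ 2 * N := by
      rw [div_le_iff₀ hN0] at h5
      refine h5.trans (mul_le_mul_of_nonneg_right ?_ hN0.le)
      refine (mul_le_mul_of_nonneg_left h6 (Real.exp_pos _).le).trans ?_
      rw [← Real.exp_add, one_div, ← Real.exp_log (by positivity : (0 : ℝ) < (n : ℝ) ^ 2),
        ← Real.exp_neg, Real.exp_le_exp, Real.log_pow]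
      have h9 : Real.log (n : ℝ) ≤ Real.log ((2 * n - 1 : ℕ) : ℝ) := by
        refine Real.log_le_log (by linarith) ?_
        exact_mod_cast (by omega : n ≤ 2 * n - 1)
      have h10 : Real.log (n : ℝ) ^ 2 ≤ Real.log ((2 * n - 1 : ℕ) : ℝ) ^ 2 :=
        pow_le_pow_left₀ (by linarith) h9 2
      have h11 := mul_le_mul hk₀' h10 (sq_nonneg _) (by positivity)
      push_cast at h11 ⊢
      nlinarith
    have h12 : ∀ f ∈ hLf.toFinset, (area (2 * n) f : ℝ) ≤ (2 * Q : ℝ) ^ 2 +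
        16 * (n : ℝ) ^ 2 *
          (if f ∈ {f | e n f ∈ {v | (Q : ℝ) ≤ diam (2 * n - 1) v}} then 1 else 0) := by
      intro f hf
      rw [Set.Finite.mem_toFinset] at hf
      obtain ⟨h13, h14⟩ := Pool.Agent.N932.AG.area_loop hn1 hf
      by_cases hb : f ∈ {f | e n f ∈ {v | (Q : ℝ) ≤ diam (2 * n - 1) v}}
      · rw [if_pos hb, mul_one]
        have h15 : (area (2 * n) f : ℝ) ≤ ((2 * (2 * n)) ^ 2 : ℕ) := by exact_mod_cast h13
        push_cast at h15
        nlinarith [sq_nonneg (2 * Q : ℝ)]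
      · rw [if_neg hb, mul_zero, add_zero]
        have h15 : diam (2 * n - 1) (e n f) ≤ Q := le_of_lt (not_le.1 hb)
        have h16 : (area (2 * n) f : ℝ) ≤ ((2 * Q) ^ 2 : ℕ) := by exact_mod_cast h14 Q h15
        push_cast at h16
        exact h16
    unfold meanArea
    change (∑ᶠ f ∈ loops n, (area (2 * n) f : ℝ)) / ((loops n).ncard : ℝ) ≤ _
    rw [finsum_mem_eq_finite_toFinset_sum _ hLf, ← hN, div_le_iff₀ hN0]
    refine (Finset.sum_le_sum h12).trans ?_
    rw [Finset.sum_add_distrib, ← Finset.mul_sum, ← Finset.sum_filter, Finset.sum_const,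
      Finset.sum_const, nsmul_eq_mul, nsmul_one, ← Set.ncard_eq_toFinset_card _ hLf, ← hN]
    have h17 : (((hLf.toFinset.filter (fun f => f ∈
        {f | e n f ∈ {v | (Q : ℝ) ≤ diam (2 * n - 1) v}})).card : ℕ) : ℝ) ≤ 1 / (n : ℝ) ^ 2 * N := by
      refine le_trans (le_of_eq ?_) h8
      rw [← Set.ncard_coe_finset, Finset.coe_filter]
      congr 2
      ext f
      simp only [Set.mem_ofPred_eq, Set.Finite.mem_toFinset, Set.mem_inter_iff]
    have h18 : 16 * (n : ℝ) ^ 2 * (1 / (n : ℝ) ^ 2 * N) = 16 * N := by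
      field_simp
    have h19 := mul_le_mul_of_nonneg_left h17 (by positivity : (0 : ℝ) ≤ 16 * (n : ℝ) ^ 2)
    rw [h18] at h19
    have h20 : (2 * Q : ℝ) ^ 2 = (780 * k₀) ^ 2 * (Y (2 * n - 1) : ℝ) ^ 2 := by
      rw [← h7]
      ring
    have h21 : (1 : ℝ) ≤ (Y (2 * n - 1) : ℝ) ^ 2 := one_le_pow₀ hY
    have h22 : (2 * Q : ℝ) ^ 2 + 16 ≤ K * (Y (2 * n - 1) : ℝ) ^ 2 := by
      rw [h20, hK]
      nlinarith
    have h23 := mul_le_mul_of_nonneg_right h22 hN0.le
    linarith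
  · -- the arcs
    have hn1 : 1 ≤ n := by omega
    have : NeZero (2 * n) := ⟨by omega⟩
    have hn2' : (2 : ℝ) ≤ n := by exact_mod_cast hn
    have hlog : Real.log 2 ≤ Real.log n := Real.log_le_log (by norm_num) hn2'
    have hll : Real.log 2 ≤ 2 * Real.log n ^ 2 := by nlinarith
    have h4 := h2 n hn (x + Real.log 2)
    have h4' := hsm n hn (x + Real.log 2) (by linarith)
    have hLf : (loops n).Finite := loops_fin hn1
    have hpos : (0 : ℝ) < (loops n).ncard := by exact_mod_cast (h3 n hn).1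
    have hxx : Real.exp (-(x + Real.log 2)) = Real.exp (-x) / 2 := by
      rw [neg_add, Real.exp_add, Real.exp_neg (Real.log 2), Real.exp_log (by norm_num)]
      ring
    rw [hxx] at h4 h4'
    unfold polyProb
    change (({f | f ∈ loops n ∧ _}).ncard : ℝ) / ((loops n).ncard : ℝ) ≤ _
    rw [div_le_iff₀ hpos]
    have h5 := add_le_add h4 h4'
    have h6 : Real.exp (-x) / 2 * ((loops n).ncard : ℝ) + Real.exp (-x) / 2 *
        ((loops n).ncard : ℝ) = Real.exp (-x) * ((loops n).ncard : ℝ) := by ring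
    rw [h6] at h5
    refine le_trans ?_ h5
    rw [← Nat.cast_add]
    refine Nat.cast_le.2 (le_trans (Set.ncard_le_ncard ?_
      ((hLf.subset Set.inter_subset_left).union (hLf.subset Set.inter_subset_left)))
      (Set.ncard_union_le _ _))
    rintro f ⟨hf, hbad⟩
    by_contra hcon
    rw [Set.mem_union, not_or] at hcon
    obtain ⟨hg1, hg2⟩ := hcon
    have hgood1 := not_not.1 (fun h => hg1 ⟨hf, h⟩)
    have hgood2 := not_not.1 (fun h => hg2 ⟨hf, h⟩)
    refine hbad (fun s m hm => ⟨fun hm4 => ?_, fun hlm => ?_⟩)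
    · -- the upper bound
      have hm2 : m < 2 * n := by omega
      have hrf : (rer n (arcS n s m) f).Finite :=
        (rer_rot hn1 (arcS_not hm2) hf.2).1
      have hne : (rer n (arcS n s m) f).Nonempty := ⟨f, hf.2, fun i _ => rfl⟩
      obtain ⟨g₀, hg₀, hmin⟩ := Set.exists_min_image (rer n (arcS n s m) f)
        (fun g => ⌊diam m (arc n s m g)⌋₊) hrf hne
      refine ⟨area (2 * n) g₀, fun k hk => ?_⟩
      have h7 := hgood1 s m (by omega) hm2 {v | 390 * k * Y m ≤ diam m v}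
      have h8 := htail m hm4 k hk
      rw [hprob] at h8
      unfold given
      change (({g | g ∈ rer n (arcS n s m) f ∧ _}).ncard : ℝ) /
        ((rer n (arcS n s m) f).ncard : ℝ) ≤ _
      have h9 : (({g | g ∈ rer n (arcS n s m) f ∧ (780 * k * (Y m : ℝ)) ^ 2 <
          |((area (2 * n) g : ℕ) : ℝ) - (area (2 * n) g₀ : ℕ)|}).ncard : ℝ) ≤
          (({g ∈ rer n (arcS n s m) f | arc n s m g ∈
            {v | 390 * k * Y m ≤ diam m v}}).ncard : ℝ) := by
        refine Nat.cast_le.2 (Set.ncard_le_ncard ?_ (hrf.subset (fun g hg => hg.1)))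
        rintro g ⟨hg, hgg⟩
        refine ⟨hg, ?_⟩
        obtain ⟨h10, h11⟩ := Pool.Agent.N932.AG.area_rer hn1 hm2 hg hg₀ (hmin g hg)
        have h12 : |((area (2 * n) g : ℕ) : ℝ) - (area (2 * n) g₀ : ℕ)| ≤
            (2 * (⌊diam m (arc n s m g)⌋₊ : ℝ)) ^ 2 := by
          have h13 : ((area (2 * n) g : ℕ) : ℝ) ≤ ((area (2 * n) g₀ +
            (2 * ⌊diam m (arc n s m g)⌋₊) ^ 2 : ℕ) : ℝ) := Nat.cast_le.2 h10
          have h14 : ((area (2 * n) g₀ : ℕ) : ℝ) ≤ ((area (2 * n) g +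
            (2 * ⌊diam m (arc n s m g)⌋₊) ^ 2 : ℕ) : ℝ) := Nat.cast_le.2 h11
          push_cast at h13 h14
          rw [abs_le]
          constructor <;> linarith
        have h13 := hgg.trans_le h12
        have h14 : 780 * k * (Y m : ℝ) < 2 * (⌊diam m (arc n s m g)⌋₊ : ℝ) :=
          lt_of_pow_lt_pow_left₀ 2 (by positivity) h13
        have h15 : (⌊diam m (arc n s m g)⌋₊ : ℝ) ≤ diam m (arc n s m g) :=
          Nat.floor_le (MP_b1de6e_pr.DiametersGivenRest.diam_nonneg m _)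
        show 390 * (k : ℝ) * Y m ≤ diam m (arc n s m g)
        linarith
      refine (div_le_div_of_nonneg_right h9 (Nat.cast_nonneg _)).trans (h7.trans ?_)
      refine (mul_le_mul_of_nonneg_left h8 (Real.exp_pos _).le).trans ?_
      rw [← Real.exp_add, Real.exp_le_exp]
      have h16 : (K2 + 2) * Real.log n ^ 2 ≤ K * Real.log n ^ 2 := by
        refine mul_le_mul_of_nonneg_right ?_ (sq_nonneg _)
        rw [hK]
        nlinarith [sq_nonneg (780 * (k₀ : ℝ))]
      linarith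
    · -- smoothness
      have h7 : C * (Real.log n ^ 2 + (x + Real.log 2)) ≤ m := by
        refine le_trans ?_ hlm
        have h8 : C * (Real.log n ^ 2 + (x + Real.log 2)) ≤ C * (3 * (Real.log n ^ 2 + x)) :=
          mul_le_mul_of_nonneg_left (by linarith) hCpos.le
        have h9 : 3 * C * (Real.log n ^ 2 + x) ≤ K * (Real.log n ^ 2 + x) :=
          mul_le_mul_of_nonneg_right hKC (by positivity)
        linarith
      obtain ⟨g1, g2, g3, g4⟩ := hgood2 s m hm h7
      have hmono : ∀ y : ℝ, 0 ≤ y → C * Real.exp (-(y / C)) ≤ K * Real.exp (-(y / K)) := by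
        intro y hy
        refine mul_le_mul hKC' (Real.exp_le_exp.2 (neg_le_neg ?_)) (Real.exp_pos _).le hKpos.le
        exact div_le_div_of_nonneg_left hy hCpos hKC'
      refine ⟨fun t φ => (g1 t φ).trans (hmono _ (by positivity)), g2, g3, fun q hq r => ?_⟩
      refine (g4 q hq r).trans ?_
      have hq0 : (0 : ℝ) < q := by exact_mod_cast hq
      have h8 := hmono (m / (q : ℝ) ^ 2) (by positivity)
      have e1 : ∀ z : ℝ, (m : ℝ) / (q : ℝ) ^ 2 / z = m / (z * q ^ 2) := by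
        intro z
        rw [div_div, mul_comm]
      rw [e1, e1] at h8
      exact h8

end Pool.Agent.Results.MP_2250b1_co.AreaGivenRest
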