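import Pool.Agent.N949.CM.Poly

/-!
Self-avoiding polygons on the square lattice: the joint law of the signed area `∫ x dy` and of the
sums of the coordinates of the vertices is a mixture of laws of sums of independent binomial random
variables.
-/

set_option autoImplicit false

namespace Pool.Agent.Results.MP_2250b1_co.AreaMixture

/-- a closed nearest-neighbour loop on `ℤ²` with `m` steps, rooted at the origin and oriented,
that visits no vertex twice -/
def IsLoop (m : ℕ) (f : ZMod m → ℤ × ℤ) : Prop :=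
  f 0 = 0 ∧ Function.Injective f ∧
    ∀ i : ZMod m, |(f (i + 1)).1 - (f i).1| + |(f (i + 1)).2 - (f i).2| = 1

/-- expectation under the uniform law on the (rooted, oriented) self-avoiding polygons of
perimeter `2 n` -/
noncomputable def E (n : ℕ) (F : (ZMod (2 * n) → ℤ × ℤ) → ℝ) : ℝ :=
  (∑ᶠ f ∈ {f : ZMod (2 * n) → ℤ × ℤ | IsLoop (2 * n) f}, F f) /
    ({f : ZMod (2 * n) → ℤ × ℤ | IsLoop (2 * n) f}.ncard : ℝ)

/-- the function `F` of the polygon does not change when one vertex of the polygon is moved and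
neither its old nor its new position is in `V` -/
def Unchanged (n : ℕ) (V : Finset (ℤ × ℤ)) (F : (ZMod (2 * n) → ℤ × ℤ) → ℝ) : Prop :=
  ∀ f f' : ZMod (2 * n) → ℤ × ℤ, IsLoop (2 * n) f → IsLoop (2 * n) f' → ∀ k,
    (∀ j, j ≠ k → f j = f' j) → f k ∉ V → f' k ∉ V → F f' = F f

/-- `X = (∑ x_k, ∑ y_k, ∫ x dy)`: the sums of the coordinates of the vertices (`2 n` times the centre
of mass, for the polygon rooted at the origin), and the signed area of the polygon. -/
def X (n : ℕ) (f : ZMod (2 * n) → ℤ × ℤ) : ℤ × ℤ × ℤ :=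
  (∑ k ∈ Finset.range (2 * n), (f k).1, ∑ k ∈ Finset.range (2 * n), (f k).2,
    ∑ k ∈ Finset.range (2 * n), (f k).1 * ((f (k + 1)).2 - (f k).2))

/-- The effects of the four kinds of moves of one vertex. -/
def v : Fin 4 → ℤ × ℤ × ℤ := ![(1, -1, 1), (1, -1, -1), (1, 1, -1), (1, 1, 1)]

/-- The mean value of `h (B₀ v₀ + B₁ v₁ + B₂ v₂ + B₃ v₃)`, where `B₀, …, B₃` are independent and
`B_t` has the binomial law with parameters `N t`, `1 / 2`. -/
noncomputable def binMean (N : Fin 4 → ℕ) (h : ℤ × ℤ × ℤ → ℝ) : ℝ :=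
  ∑ j ∈ Fintype.piFinset (fun t => Finset.range (N t + 1)),
    (∏ t, ((N t).choose (j t) : ℝ) / 2 ^ N t) * h (∑ t, j t • v t)

/-- scalar product -/
def dot (θ : ℝ × ℝ × ℝ) (x : ℤ × ℤ × ℤ) : ℝ := θ.1 * x.1 + θ.2.1 * x.2.1 + θ.2.2 * x.2.2

/-- the three coordinates -/
def coord (s : Fin 3) (x : ℤ × ℤ × ℤ) : ℤ := ![x.1, x.2.1, x.2.2] s

open Pool.Agent.H976R2 Pool.Agent.H739K in
theorem E_eq {n : ℕ} (hn : 2 ≤ n) (F : (ZMod (2 * n) → ℤ × ℤ) → ℝ) :
    E n F = Pool.Agent.N949.CM.MM (KP (2 * n - 1)) (fun w => F (lp (2 * n) w)) :=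
  F4x.me_eq CONV_proof hn F

open Pool.Agent.H976R2 Pool.Agent.H739K in
theorem lp_inj {n : ℕ} (hn : 2 ≤ n) {w w' : List Dir} (hw : w ∈ KP (2 * n - 1))
    (hw' : w' ∈ KP (2 * n - 1)) (h : lp (2 * n) w = lp (2 * n) w') : w = w' := by
  refine pth_injOn (2 * n - 1) (Finset.mem_coe.2 (Finset.mem_filter.1 hw).1)
    (Finset.mem_coe.2 (Finset.mem_filter.1 hw').1) ?_
  funext k
  have hk : (k : ℕ) < 2 * n := by
    have := k.isLt
    omega
  have h1 := Pool.Agent.N949.CM.lp_nat hn hk w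
  have h2 := Pool.Agent.N949.CM.lp_nat hn hk w'
  show Lip.PP w k = Lip.PP w' k
  rw [← h1, ← h2, h]

open scoped Classical in
/-- the word of a polygon -/
noncomputable def word (n : ℕ) (f : ZMod (2 * n) → ℤ × ℤ) : List Pool.Agent.H976R2.Dir :=
  if h : ∃ w ∈ Pool.Agent.H739K.KP (2 * n - 1), Pool.Agent.H739K.lp (2 * n) w = f then h.choose
  else []

open Pool.Agent.H976R2 Pool.Agent.H739K in
theorem word_lp {n : ℕ} (hn : 2 ≤ n) {w : List Dir} (hw : w ∈ KP (2 * n - 1)) :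
    word n (lp (2 * n) w) = w := by
  have h : ∃ w' ∈ KP (2 * n - 1), lp (2 * n) w' = lp (2 * n) w := ⟨w, hw, rfl⟩
  unfold word
  rw [dif_pos h]
  exact lp_inj hn h.choose_spec.1 hw h.choose_spec.2

open Pool.Agent.H976R2 Pool.Agent.H739K in
theorem coord_X {n : ℕ} (hn : 2 ≤ n) {w : List Dir} (hw : w ∈ KP (2 * n - 1)) (s : Fin 3) :
    coord s (X n (lp (2 * n) w)) = Pool.Agent.N949.CM.fun3 s w := by
  have h : X n (lp (2 * n) w) = Pool.Agent.N949.CM.vec w := Pool.Agent.N949.CM.VX_lp hn hw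
  rw [h]
  fin_cases s <;> rfl

open scoped Classical in
/-- **Theorem.** Let `f` be the uniform (rooted, oriented) self-avoiding polygon of perimeter `2 n` on
`ℤ²` and `X = (∑ x_k, ∑ y_k, ∫ x dy)`. There are `C ≥ 1` and `A : ℕ → ℝ` such that for all `n ≥ 2`
and all sets `V` of at most `n / C` points of `ℤ²` there are functions `u` and `N` of the polygon
with values in `ℤ³` and `ℕ⁴` such that `N₀ + N₁ + N₂ + N₃ ≥ n / C` except with probability at most
`C exp(- n / C)` and such that for every function `F` of the polygon which does not change when one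
vertex is moved outside of `V` (for example `F = 1`, or any function of the times and places of the
visits of the polygon to `V`):
(1) `E[F h(u, N, X)] = E[F h(u, N, u + B₀ v₀ + B₁ v₁ + B₂ v₂ + B₃ v₃)]` for all functions `h`,
where, given the polygon, the `B_t` are independent and binomial with parameters `N_t`, `1 / 2`;
and if `|F| ≤ 1`, then
(2) `|E[F cos(θ · X + φ)]| ≤ C (E|F| exp(- m n / C) + exp(- n / C))` for all `θ ∈ ℝ³` and `φ`, where
`m` is the minimum of `sin²(θ · v_t / 2)`, `t = 0, …, 3`;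
and for each of the three coordinates `S` of `X`
(3) `|E[F ∑ (-1)^i C(k,i) h(S + i)]| ≤ A k (E|F| n^(-k/2) + exp(- n / C))` for all `k` and all
functions `h` on `ℤ` with values in `[-1, 1]` (`i` runs from `0` to `k`);
(4) `|E[F 1(S ≡ r mod q)] - E[F] / q| ≤ C (E|F| exp(- n / (C q²)) + exp(- n / C))` for all `q ≥ 1`
and `r`. -/
theorem result : ∃ C : ℝ, 1 ≤ C ∧ ∃ A : ℕ → ℝ, ∀ n : ℕ, 2 ≤ n → ∀ V : Finset (ℤ × ℤ),
    C * V.card ≤ n → ∃ (u : (ZMod (2 * n) → ℤ × ℤ) → ℤ × ℤ × ℤ)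
      (N : (ZMod (2 * n) → ℤ × ℤ) → Fin 4 → ℕ),
      E n (fun f => if C * ((∑ t, N f t : ℕ) : ℝ) < n then 1 else 0) ≤
        C * Real.exp (-(n / C)) ∧
      ∀ F : (ZMod (2 * n) → ℤ × ℤ) → ℝ, Unchanged n V F →
      (∀ h : ℤ × ℤ × ℤ → (Fin 4 → ℕ) → ℤ × ℤ × ℤ → ℝ,
        E n (fun f => F f * h (u f) (N f) (X n f)) =
          E n (fun f => F f * binMean (N f) (fun x => h (u f) (N f) (u f + x)))) ∧
      ((∀ f, IsLoop (2 * n) f → |F f| ≤ 1) →
        (∀ (θ : ℝ × ℝ × ℝ) (φ m : ℝ), 0 ≤ m → (∀ t, m ≤ Real.sin (dot θ (v t) / 2) ^ 2) →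
          |E n (fun f => F f * Real.cos (dot θ (X n f) + φ))| ≤
            C * (E n (fun f => |F f|) * Real.exp (-(m * n / C)) + Real.exp (-(n / C)))) ∧
        (∀ (s : Fin 3) (k : ℕ) (h : ℤ → ℝ), (∀ a, |h a| ≤ 1) →
          |E n (fun f => F f * ∑ i ∈ Finset.range (k + 1), (-1 : ℝ) ^ i * (k.choose i : ℝ) *
            h (coord s (X n f) + i))| ≤
            A k * (E n (fun f => |F f|) / Real.sqrt n ^ k + Real.exp (-(n / C)))) ∧
        (∀ (s : Fin 3) (q : ℕ), 1 ≤ q → ∀ r : ℤ,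
          |E n (fun f => F f * (if coord s (X n f) ≡ r [ZMOD q] then 1 else 0)) - E n F / q| ≤
            C * (E n (fun f => |F f|) * Real.exp (-(n / (C * q ^ 2))) +
              Real.exp (-(n / C))))) := by
  obtain ⟨C, hC, A, h⟩ := Pool.Agent.N949.CM.fin_poly
  refine ⟨C, hC, A, ?_⟩
  intro n hn V hV
  have hc : (0 : ℝ) < ((Pool.Agent.H739K.KP (2 * n - 1)).card : ℝ) :=
    Pool.Agent.R54.AS.Fin.card_pos hn
  obtain ⟨u, N, hN, hall⟩ := h n hn V hV
  have hMM : ∀ F G : List Pool.Agent.H976R2.Dir → ℝ,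
      (∀ w ∈ Pool.Agent.H739K.KP (2 * n - 1), F w = G w) →
      Pool.Agent.N949.CM.MM (Pool.Agent.H739K.KP (2 * n - 1)) F =
        Pool.Agent.N949.CM.MM (Pool.Agent.H739K.KP (2 * n - 1)) G := by
    intro F G hFG
    unfold Pool.Agent.N949.CM.MM
    rw [Finset.sum_congr rfl hFG]
  have hX : ∀ w ∈ Pool.Agent.H739K.KP (2 * n - 1), X n (Pool.Agent.H739K.lp (2 * n) w) =
      Pool.Agent.N949.CM.vec w := fun w hw => Pool.Agent.N949.CM.VX_lp hn hw
  refine ⟨fun f => u (word n f), fun f => N (word n f), ?_, ?_⟩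
  · rw [E_eq hn]
    have e1 := hMM (fun w => if C * ((∑ t, N (word n (Pool.Agent.H739K.lp (2 * n) w)) t : ℕ) : ℝ)
        < n then (1 : ℝ) else 0)
      (fun w => if C * ((∑ t, N w t : ℕ) : ℝ) < n then (1 : ℝ) else 0)
      (fun w hw => by rw [word_lp hn hw])
    rw [e1]
    unfold Pool.Agent.N949.CM.MM
    rw [div_le_iff₀ hc, ← Finset.sum_filter, Finset.sum_const, nsmul_one]
    exact hN
  intro F hF
  obtain ⟨g0, g1⟩ := hall (fun w => F (Pool.Agent.H739K.lp (2 * n) w))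
    (fun w hw i hi hiV => Pool.Agent.N949.AL.loop_flip hn hF hw hi hiV)
  refine ⟨?_, ?_⟩
  · intro h'
    rw [E_eq hn, E_eq hn]
    have e1 := hMM (fun w => F (Pool.Agent.H739K.lp (2 * n) w) *
        h' (u (word n (Pool.Agent.H739K.lp (2 * n) w)))
        (N (word n (Pool.Agent.H739K.lp (2 * n) w)))
        (X n (Pool.Agent.H739K.lp (2 * n) w)))
      (fun w => F (Pool.Agent.H739K.lp (2 * n) w) * h' (u w) (N w) (Pool.Agent.N949.CM.vec w))
      (fun w hw => by rw [word_lp hn hw, hX w hw])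
    have e2 := hMM (fun w => F (Pool.Agent.H739K.lp (2 * n) w) *
        binMean (N (word n (Pool.Agent.H739K.lp (2 * n) w)))
        (fun x => h' (u (word n (Pool.Agent.H739K.lp (2 * n) w)))
        (N (word n (Pool.Agent.H739K.lp (2 * n) w)))
        (u (word n (Pool.Agent.H739K.lp (2 * n) w)) + x)))
      (fun w => F (Pool.Agent.H739K.lp (2 * n) w) *
        Pool.Agent.N949.CM.bin (N w) (fun x => h' (u w) (N w) (u w + x)))
      (fun w hw => by rw [word_lp hn hw]; rfl)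
    rw [e1, e2]
    unfold Pool.Agent.N949.CM.MM
    rw [g0 h']
  intro hF1
  obtain ⟨g2, g3, g4⟩ := g1 (fun w hw =>
    hF1 _ ((Pool.Agent.H739K.CONV_proof n hn).2.2 w hw))
  refine ⟨?_, ?_, ?_⟩
  · intro θ φ m hm0 hm
    rw [E_eq hn, E_eq hn]
    have e1 := hMM (fun w => F (Pool.Agent.H739K.lp (2 * n) w) *
        Real.cos (dot θ (X n (Pool.Agent.H739K.lp (2 * n) w)) + φ))
      (fun w => F (Pool.Agent.H739K.lp (2 * n) w) *
        Real.cos (Pool.Agent.N949.CM.dot θ (Pool.Agent.N949.CM.vec w) + φ))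
      (fun w hw => by rw [hX w hw]; rfl)
    rw [e1]
    exact g2 θ φ m hm0 hm
  · intro s k h' hh'
    rw [E_eq hn, E_eq hn]
    have e1 := hMM (fun w => F (Pool.Agent.H739K.lp (2 * n) w) *
        ∑ i ∈ Finset.range (k + 1), (-1 : ℝ) ^ i * (k.choose i : ℝ) *
            h' (coord s (X n (Pool.Agent.H739K.lp (2 * n) w)) + i))
      (fun w => F (Pool.Agent.H739K.lp (2 * n) w) *
        ∑ i ∈ Finset.range (k + 1), (-1 : ℝ) ^ i * (k.choose i : ℝ) *
            h' (Pool.Agent.N949.CM.fun3 s w + i))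
      (fun w hw => by rw [coord_X hn hw])
    rw [e1]
    exact g3 s k h' hh'
  · intro s q hq r
    rw [E_eq hn, E_eq hn, E_eq hn]
    have e1 := hMM (fun w => F (Pool.Agent.H739K.lp (2 * n) w) *
        (if coord s (X n (Pool.Agent.H739K.lp (2 * n) w)) ≡ r [ZMOD q] then 1 else 0))
      (fun w => F (Pool.Agent.H739K.lp (2 * n) w) *
        (if Pool.Agent.N949.CM.fun3 s w ≡ r [ZMOD q] then 1 else 0))
      (fun w hw => by rw [coord_X hn hw])
    rw [e1]
    exact g4 s q hq r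

end Pool.Agent.Results.MP_2250b1_co.AreaMixture
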