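import Pool.Agent.N226.SX.Form
import Pool.Agent.Results.MP_2250b1_co.AllOrders

/-!
# The mean area of self-avoiding polygons: asymptotic form and expansions along sparse perimeters
-/

set_option autoImplicit false

namespace Pool.Agent.Results.MP_2250b1_co.ExpansionsFromSparseLengths

open Finset Filter Topology Pool.Agent.Results.MP_2250b1_co.AllOrders

/-- The expansion `β log n + ∑ a_i n ^ (-θ_i)`. -/
noncomputable def expansion (q : ℕ) (β : ℝ) (a θ : Fin q → ℝ) (n : ℕ) : ℝ :=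
  β * Real.log n + ∑ i, a i * (n : ℝ) ^ (-(θ i))

theorem A_pos (k : ℕ) {n : ℕ} (hn : 2 ≤ n) : 0 < A k n := by
  have h1 := Pool.Agent.N929.EZ.KP_pos (n := 2 * n - 1) (by omega) (by omega)
  have h2 := Pool.Agent.N929.EZ.area_low_pow (n := 2 * n - 1) (by omega) (by omega) k
  rw [A_eq k hn]
  refine div_pos (lt_of_lt_of_le ?_ h2) h1
  positivity

/-- Let `A k n` be the mean of the `k`-th power of the area of the self-avoiding polygons of
perimeter `2 n` on `ℤ²` (`A 1 n` is the mean area `A_n`). Let `u_j → ∞` be integers with gaps at most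
`u_j ^ α` for some `α < 1 / 2` (for instance `u_j = ⌊j ^ 1.99⌋`).

(1) If `A k n ~ C n ^ β` along `n = u_j`, with any `C > 0` and real `β`, then `A k n ~ C n ^ β` for
all `n`.

(2) If `log (A k n) = β log n + ∑ a_i n ^ (-θ_i) + O (n ^ (-M))` along `n = u_j`, a finite expansion
with any real exponents `θ_i ≥ 0` and `M ≥ 0`, then for every `s ≥ 0` and `b < 1 / 2` the `s`-th
difference of `log (A k n) - β log n - ∑ a_i n ^ (-θ_i)` is `O (n ^ (-M - b s))`, for all `n`. For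
`s = 0` the expansion holds for all `n` with the same error term. -/
theorem result : ∀ (k : ℕ) (α : ℝ), 0 ≤ α → α < 1 / 2 → ∀ u : ℕ → ℕ, Tendsto u atTop atTop →
      (∀ᶠ j : ℕ in atTop, (u (j + 1) : ℝ) ≤ u j + (u j : ℝ) ^ α) →
      (∀ C β : ℝ, 0 < C →
        Tendsto (fun j : ℕ => A k (u j) / (u j : ℝ) ^ β) atTop (𝓝 C) →
        Tendsto (fun n : ℕ => A k n / (n : ℝ) ^ β) atTop (𝓝 C)) ∧
      ∀ (q : ℕ) (β : ℝ) (a θ : Fin q → ℝ), (∀ i, 0 ≤ θ i) → ∀ M : ℝ, 0 ≤ M →
        (∃ C : ℝ, ∀ᶠ j : ℕ in atTop,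
          |Real.log (A k (u j)) - expansion q β a θ (u j)| ≤ C * (u j : ℝ) ^ (-M)) →
        ∀ (s : ℕ) (b : ℝ), 0 ≤ b → b < 1 / 2 → ∃ C : ℝ, ∀ᶠ n : ℕ in atTop,
          |∑ i ∈ range (s + 1), (-1 : ℝ) ^ i * (s.choose i : ℝ) *
            (Real.log (A k (n + i)) - expansion q β a θ (n + i))| ≤
            C * (n : ℝ) ^ (-(M + b * s)) := by
  intro k α hα0 hα u hu hgap
  have hreg : Pool.Agent.N226.SX.Reg (1 / 2) (fun n : ℕ => Real.log (A k n)) := by
    refine Pool.Agent.N226.SX.reg_of_log_one fun r hr => ?_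
    obtain ⟨K, hK⟩ := Pool.Agent.Results.MP_2250b1_co.AllOrders.result k r hr
    exact ⟨K, (eventually_ge_atTop 2).mono fun n hn => hK n hn⟩
  have hP : ∀ᶠ n : ℕ in atTop, 0 < A k n := (eventually_ge_atTop 2).mono fun n hn => A_pos k hn
  exact ⟨fun C β hC hval =>
    Pool.Agent.N226.SX.form_one (by norm_num) hP hreg α hα0 hα u hu hgap β C hC hval,
    fun q β a θ hθ M hM hval s b hb0 hb => Pool.Agent.N226.SX.main_one (by norm_num) hreg
      (Pool.Agent.N226.SX.reg_G1 (1 / 2) (by norm_num) q β a θ hθ) M α hM hα0 hα u hu hgap hval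
      s b hb0 hb⟩

end Pool.Agent.Results.MP_2250b1_co.ExpansionsFromSparseLengths
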